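import Pool.Agent.H741.RS.Stm

/-!
# RS INVF: invariance of the form under elements of finite order of the source group
-/

set_option autoImplicit false
open scoped ComplexConjugate

namespace Pool.Agent.H415.RS

open Pool.Agent.H741.RS

variable {n N : ℕ}

theorem ball_ext {P Q : MvPolynomial (Fin n) ℂ} (h : ∀ z ∈ Bn n, ev P z = ev Q z) : P = Q := by
  have hs : ∀ _ : Fin n, ({t : ℂ | ‖t‖ < 1 / ((n : ℝ) + 1)} : Set ℂ).Infinite := fun _ => by
    have : ({t : ℂ | ‖t‖ < 1 / ((n : ℝ) + 1)} : Set ℂ) = Metric.ball 0 (1 / ((n : ℝ) + 1)) := by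
      ext t; simp
    rw [this]
    exact infinite_of_mem_nhds (0 : ℂ) (Metric.ball_mem_nhds _ (by positivity))
  refine MvPolynomial.funext_set (fun _ : Fin n => {t : ℂ | ‖t‖ < 1 / ((n : ℝ) + 1)}) hs fun x hx => ?_
  have hz : (WithLp.toLp 2 x : V n) ∈ Bn n := by
    show ‖(WithLp.toLp 2 x : V n)‖ < 1
    rw [EuclideanSpace.norm_eq, Real.sqrt_lt' one_pos]
    have hb : ∀ i, ‖x i‖ ^ 2 ≤ 1 / ((n : ℝ) + 1) := fun i => by
      have h1 : ‖x i‖ < 1 / ((n : ℝ) + 1) := hx i (Set.mem_univ i)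
      have h2 : 1 / ((n : ℝ) + 1) ≤ 1 := by
        rw [div_le_one (by positivity)]
        have : (0 : ℝ) ≤ n := Nat.cast_nonneg n
        linarith
      nlinarith [norm_nonneg (x i)]
    calc ∑ i, ‖(WithLp.toLp 2 x : V n) i‖ ^ 2 ≤ ∑ _i : Fin n, 1 / ((n : ℝ) + 1) := Finset.sum_le_sum fun i _ => hb i
      _ = n / ((n : ℝ) + 1) := by simp [div_eq_mul_inv]
      _ < 1 ^ 2 := by
        rw [one_pow, div_lt_one (by positivity)]
        linarith
  exact h _ hz

theorem all_ext {P Q : MvPolynomial (Fin n) ℂ} (h : ∀ z : V n, ev P z = ev Q z) : P = Q :=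
  ball_ext fun z _ => h z

theorem ev_mul (P Q : MvPolynomial (Fin n) ℂ) (z : V n) : ev (P * Q) z = ev P z * ev Q z := by
  unfold ev; rw [map_mul]

theorem ev_C (c : ℂ) (z : V n) : ev (MvPolynomial.C c) z = c := by
  unfold ev; rw [MvPolynomial.eval_C]

/-- coordinates on `ℂ × ℂ^N` -/
noncomputable def co : (ℂ × V N) ≃ₗ[ℂ] (Fin (N + 1) → ℂ) where
  toFun X := Fin.cons X.1 (fun i => X.2 i)
  invFun x := (x 0, WithLp.toLp 2 fun i => x i.succ)
  map_add' X Y := by
    funext i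
    refine Fin.cases ?_ (fun i => ?_) i <;> simp
  map_smul' c X := by
    funext i
    refine Fin.cases ?_ (fun i => ?_) i <;> simp
  left_inv X := by
    ext i <;> simp
  right_inv x := by
    funext i
    refine Fin.cases ?_ (fun i => ?_) i <;> simp

/-- the action of a linear map on vectors of polynomials -/
noncomputable def act (T : (ℂ × V N) →ₗ[ℂ] (ℂ × V N)) (Y : Fin (N + 1) → MvPolynomial (Fin n) ℂ) :
    Fin (N + 1) → MvPolynomial (Fin n) ℂ :=
  fun i => ∑ j, MvPolynomial.C (LinearMap.toMatrix' (co.toLinearMap ∘ₗ T ∘ₗ co.symm.toLinearMap) i j) * Y j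

theorem ev_act (T : (ℂ × V N) →ₗ[ℂ] (ℂ × V N)) (Y : Fin (N + 1) → MvPolynomial (Fin n) ℂ) (z : V n) (i : Fin (N + 1)) :
    ev (act T Y i) z = co (T (co.symm fun j => ev (Y j) z)) i := by
  have h := congrFun (LinearMap.toMatrix'_mulVec (co.toLinearMap ∘ₗ T ∘ₗ co.symm.toLinearMap) (fun j => ev (Y j) z)) i
  have h2 : co (T (co.symm fun j => ev (Y j) z)) i =
      (co.toLinearMap ∘ₗ T ∘ₗ co.symm.toLinearMap) (fun j => ev (Y j) z) i := rfl
  rw [h2, ← h]
  unfold act ev Matrix.mulVec dotProduct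
  rw [map_sum]
  refine Finset.sum_congr rfl fun j _ => ?_
  rw [map_mul, MvPolynomial.eval_C]

theorem dvd_act (T : (ℂ × V N) →ₗ[ℂ] (ℂ × V N)) (Y : Fin (N + 1) → MvPolynomial (Fin n) ℂ) (r : MvPolynomial (Fin n) ℂ)
    (h : ∀ i, r ∣ Y i) (i : Fin (N + 1)) : r ∣ act T Y i :=
  Finset.dvd_sum fun j _ => Dvd.dvd.mul_left (h j) _

/-- composition with a unitary map -/
noncomputable def cmp (U : V n ≃ₗᵢ[ℂ] V n) : MvPolynomial (Fin n) ℂ →ₐ[ℂ] MvPolynomial (Fin n) ℂ :=
  MvPolynomial.bind₁ fun k => ∑ l, MvPolynomial.C ((U (EuclideanSpace.single l (1 : ℂ))) k) * MvPolynomial.X l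

theorem ev_cmp (U : V n ≃ₗᵢ[ℂ] V n) (P : MvPolynomial (Fin n) ℂ) (z : V n) : ev (cmp U P) z = ev P (U z) := by
  unfold ev cmp
  rw [← MvPolynomial.coe_aeval_eq_eval, ← MvPolynomial.coe_aeval_eq_eval]
  simp only [RingHom.coe_coe]
  rw [MvPolynomial.aeval_bind₁]
  congr 2
  funext k
  rw [map_sum]
  have hz : z = ∑ l, z l • EuclideanSpace.single l (1 : ℂ) := by
    ext k
    simp [Finset.sum_apply, Pi.single_apply]
  have h1 : (U z) k = ∑ l, z l * (U (EuclideanSpace.single l (1 : ℂ))) k := by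
    conv_lhs => rw [hz]
    rw [map_sum]
    simp
  rw [h1]
  refine Finset.sum_congr rfl fun l _ => ?_
  simp [mul_comm]

/-- the vector of the numerators and the denominator -/
noncomputable def YF (f : RSM n N) : Fin (N + 1) → MvPolynomial (Fin n) ℂ := Fin.cons f.q f.p

theorem ev_YF (f : RSM n N) (z : V n) : (co.symm fun j => ev (YF f j) z) = f.F z := rfl

theorem co_F (f : RSM n N) (z : V n) (j : Fin (N + 1)) : co (f.F z) j = ev (YF f j) z := by
  rw [← ev_YF]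
  simp

theorem J_self {n : ℕ} (X : ℂ × V n) : J X X = ((‖X.1‖ ^ 2 - ‖X.2‖ ^ 2 : ℝ) : ℂ) := by
  unfold J hp
  rw [Complex.mul_conj, Complex.normSq_eq_norm_sq, inner_self_eq_norm_sq_to_K]
  push_cast
  rfl

theorem J_smul {n : ℕ} (c : ℂ) (X Y : ℂ × V n) : J (c • X) (c • Y) = (c * conj c) * J X Y := by
  unfold J hp
  simp only [Prod.smul_fst, Prod.smul_snd, smul_eq_mul, inner_smul_left, inner_smul_right, map_mul]
  ring

theorem F_eq (f : RSM n N) {z : V n} (hz : z ∈ Bn n) : f.F z = ev f.q z • ((1 : ℂ), f.map z) := by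
  have hq : ev f.q z ≠ 0 := f.q_ne z (le_of_lt hz)
  unfold RSM.F RSM.map
  refine Prod.ext ?_ ?_
  · simp
  · ext i
    simp only [Prod.smul_snd, PiLp.smul_apply, smul_eq_mul]
    field_simp

theorem map_mem (f : RSM n N) {z : V n} (hz : z ∈ Bn n) : f.map z ∈ Bn N := by
  have hq : ev f.q z ≠ 0 := f.q_ne z (le_of_lt hz)
  have hq' : 0 < ‖ev f.q z‖ ^ 2 := by positivity
  have h := f.maps z hz
  show ‖f.map z‖ < 1
  rw [EuclideanSpace.norm_eq, Real.sqrt_lt' one_pos, one_pow]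
  have e : ∑ i, ‖f.map z i‖ ^ 2 = (∑ i, ‖ev (f.p i) z‖ ^ 2) / ‖ev f.q z‖ ^ 2 := by
    rw [Finset.sum_div]
    refine Finset.sum_congr rfl fun i _ => ?_
    show ‖ev (f.p i) z / ev f.q z‖ ^ 2 = _
    rw [norm_div, div_pow]
  rw [e, div_lt_one hq']
  exact h

theorem J_F_zero (f : RSM n N) : J (f.F 0) (f.F 0) ≠ 0 := by
  rw [J_self]
  have h := f.maps 0 (by simp)
  have e : ‖(f.F 0).2‖ ^ 2 = ∑ i, ‖ev (f.p i) 0‖ ^ 2 := by
    rw [EuclideanSpace.norm_sq_eq]
    rfl
  rw [e]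
  have e1 : ‖(f.F 0).1‖ ^ 2 = ‖ev f.q 0‖ ^ 2 := rfl
  rw [e1]
  have h2 : (‖ev f.q 0‖ ^ 2 - ∑ i, ‖ev (f.p i) 0‖ ^ 2 : ℝ) ≠ 0 := by
    have : (0 : ℝ) < ‖ev f.q 0‖ ^ 2 - ∑ i, ‖ev (f.p i) 0‖ ^ 2 := by linarith
    exact this.ne'
  exact_mod_cast h2

theorem t_INVF (h1 : S_UFD) (h2 : S_PRES) : S_INVF := by
  intro n N f U m hm hU hG
  obtain ⟨-, ψ, ⟨B, hB, hψ⟩, hmap⟩ := hG
  obtain ⟨⟨B', hB', hB1, hB2⟩, hball⟩ := h2 N B hB
  have hL : ∀ z i, ev (cmp U (YF f i)) z = co (f.F (U z)) i := fun z i => by rw [co_F]; exact ev_cmp U _ z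
  have hR : ∀ z i, ev (act B (YF f) i) z = co (B (f.F z)) i := fun z i => by rw [ev_act, ev_YF]
  have hUn : ∀ z, z ∈ Bn n → U z ∈ Bn n := fun z hz => by
    show ‖U z‖ < 1
    rw [U.norm_map]
    exact hz
  have hprop : ∀ i j, cmp U (YF f i) * act B (YF f) j = cmp U (YF f j) * act B (YF f) i := by
    intro i j
    apply ball_ext
    intro z hz
    rw [ev_mul, ev_mul, hL, hL, hR, hR]
    obtain ⟨-, -, h3, -⟩ := hball (f.map z) (map_mem f hz)
    have h4 : frac B (f.map z) = f.map (U z) := by rw [hmap z hz, hψ _ (map_mem f hz)]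
    rw [h4] at h3
    rw [F_eq f (hUn z hz), F_eq f hz, map_smul B, h3]
    simp only [map_smul, Pi.smul_apply, smul_eq_mul]
    ring
  have hlow : ∀ r, (∀ i, r ∣ YF f i) → IsUnit r := fun r hr =>
    f.lowest r (hr 0) fun i => hr i.succ
  have hcop : ∀ r, (∀ i, r ∣ act B (YF f) i) → IsUnit r := by
    intro r hr
    apply hlow
    intro i
    have h3 : act B' (act B (YF f)) i = YF f i := by
      apply all_ext
      intro z
      rw [ev_act]
      have h4 : (fun j => ev (act B (YF f) j) z) = co (B (f.F z)) := funext fun j => hR z j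
      have h5 : B' (B (f.F z)) = f.F z := LinearMap.congr_fun hB1 (f.F z)
      rw [h4, LinearEquiv.symm_apply_apply, ← co_F, h5]
    rw [← h3]
    exact dvd_act B' _ r hr i
  obtain ⟨lam, hlam⟩ := h1 n (N + 1) (fun i => cmp U (YF f i)) (act B (YF f)) hprop hcop
  have hinv : ∀ P : MvPolynomial (Fin n) ℂ, cmp U.symm (cmp U P) = P := fun P => by
    apply all_ext
    intro z
    rw [ev_cmp, ev_cmp, LinearIsometryEquiv.apply_symm_apply]
  have hinv' : ∀ P : MvPolynomial (Fin n) ℂ, cmp U (cmp U.symm P) = P := fun P => by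
    apply all_ext
    intro z
    rw [ev_cmp, ev_cmp, LinearIsometryEquiv.symm_apply_apply]
  have hunit : IsUnit lam := by
    have h3 : IsUnit (cmp U.symm lam) := by
      apply hlow
      intro i
      have h4 : lam ∣ cmp U (YF f i) := ⟨_, hlam i⟩
      have h5 := map_dvd (cmp U.symm) h4
      rwa [hinv] at h5
    have h4 := h3.map (cmp U)
    rwa [hinv'] at h4
  obtain ⟨c, -, rfl⟩ := MvPolynomial.isUnit_iff_eq_C_of_isReduced.1 hunit
  have hFU : ∀ z, f.F (U z) = c • B (f.F z) := by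
    intro z
    apply co.injective
    funext i
    have h3 := congrArg (fun P => ev P z) (hlam i)
    simp only [ev_mul, ev_C] at h3
    rw [hL, hR] at h3
    rw [h3, map_smul]
    rfl
  have hstep : ∀ z w, J (f.F (U z)) (f.F (U w)) = (c * conj c) * J (f.F z) (f.F w) := fun z w => by
    rw [hFU, hFU, J_smul, hB]
  have hiter : ∀ k : ℕ, ∀ z w, J (f.F ((U ^ k) z)) (f.F ((U ^ k) w)) = (c * conj c) ^ k * J (f.F z) (f.F w) := by
    intro k
    induction k with
    | zero => intro z w; simp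
    | succ k ih =>
      intro z w
      have e : ∀ v : V n, (U ^ (k + 1)) v = U ((U ^ k) v) := fun v => by rw [pow_succ']; rfl
      rw [e, e, hstep, ih]
      ring
  have h3 := hiter m 0 0
  rw [hU] at h3
  have h4 : (c * conj c) ^ m = 1 := by
    apply mul_right_cancel₀ (J_F_zero f)
    rw [one_mul]
    exact h3.symm
  have h5 : c * conj c = 1 := by
    rw [Complex.mul_conj] at h4 ⊢
    have h6 : (Complex.normSq c) ^ m = 1 := by exact_mod_cast h4
    have h7 := (pow_eq_one_iff_of_nonneg (Complex.normSq_nonneg c) (by omega)).1 h6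
    rw [h7]; simp
  intro z w
  rw [hstep, h5, one_mul]

end Pool.Agent.H415.RS
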